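import Pool.Agent.H73.UG.YbDefs

/-!
# Linear algebra for the restriction to the section `x₀ = 0`
-/

set_option autoImplicit false

open MvPolynomial

namespace Pool.Agent.H47.UG

theorem exists_functionals {K V : Type} [Field K] [AddCommGroup V] [Module K V] (Z B : Submodule K V) (R : ℕ)
    (h : ∀ E : Fin (R + 1) → V, (∀ j, E j ∈ Z) → ∃ c : Fin (R + 1) → K, c ≠ 0 ∧ ∑ j, c j • E j ∈ B) :
    ∃ Φ : V →ₗ[K] (Fin R → K), ∀ v ∈ Z, Φ v = 0 → v ∈ B := by
  classical
  set Z' : Submodule K (V ⧸ B) := Z.map B.mkQ with hZ'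
  have hrank : Module.rank K Z' ≤ (R : Cardinal) := by
    apply rank_le
    intro s hs
    by_contra hcard
    push Not at hcard
    have hle : Fintype.card (Fin (R + 1)) ≤ Fintype.card s := by
      simpa using hcard
    obtain ⟨emb⟩ := Function.Embedding.nonempty_of_card_le hle
    have hli : LinearIndependent K (fun j : Fin (R + 1) => ((emb j : s) : Z')) :=
      hs.comp _ emb.injective
    have hlift : ∀ j : Fin (R + 1), ∃ v ∈ Z, B.mkQ v = (((emb j : s) : Z') : V ⧸ B) := by
      intro j
      exact Submodule.mem_map.mp ((emb j : s) : Z').2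
    choose E hEZ hE using hlift
    obtain ⟨c, hc0, hc⟩ := h E hEZ
    apply hc0
    have hsum : ∑ j, c j • ((emb j : s) : Z') = 0 := by
      apply Subtype.ext
      rw [Submodule.coe_sum]
      have : ∀ j, ((c j • ((emb j : s) : Z') : Z') : V ⧸ B) = B.mkQ (c j • E j) := by
        intro j
        rw [Submodule.coe_smul, ← hE j, map_smul]
      simp only [this]
      rw [← map_sum, ZeroMemClass.coe_zero, Submodule.mkQ_apply, Submodule.Quotient.mk_eq_zero]
      exact hc
    funext j
    exact Fintype.linearIndependent_iff.mp hli c hsum j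
  have hfin : Module.Finite K Z' := by
    rw [← Module.rank_lt_aleph0_iff]
    exact lt_of_le_of_lt hrank (Cardinal.natCast_lt_aleph0)
  have hfr : Module.finrank K Z' ≤ R := Module.finrank_le_of_rank_le hrank
  let e := Module.finBasis K Z'
  let ι : Fin (Module.finrank K Z') ↪ Fin R := Fin.castLEEmb hfr
  -- an injective linear map `Z' → K^R`
  let f : Z' →ₗ[K] (Fin R → K) := e.constr K fun t => Pi.single (ι t) 1
  have hf : ∀ z : Z', f z = 0 → z = 0 := by
    intro z hz
    rw [← e.sum_repr z]
    apply Finset.sum_eq_zero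
    intro t _
    have h1 : f z (ι t) = e.repr z t := by
      simp only [f, Module.Basis.constr_apply_fintype, Finset.sum_apply, Pi.smul_apply, smul_eq_mul,
        Module.Basis.equivFun_apply]
      rw [Finset.sum_eq_single t]
      · simp
      · intro b _ hb
        rw [Pi.single_eq_of_ne, mul_zero]
        exact fun h => hb (ι.injective h.symm)
      · simp
    rw [← h1, hz]
    simp
  obtain ⟨g, hg⟩ := f.exists_extend
  refine ⟨g.comp B.mkQ, ?_⟩
  intro v hv h0
  have hmem : B.mkQ v ∈ Z' := Submodule.mem_map_of_mem hv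
  have h2 : f ⟨B.mkQ v, hmem⟩ = 0 := by
    rw [← hg]
    simpa using h0
  have h3 := congrArg Subtype.val (hf _ h2)
  simpa using h3

theorem exists_lam {K σ : Type} [Field K] (I : Submodule K (MvPolynomial σ K)) (B : Finset (σ →₀ ℕ))
    (hI : ∀ v ∈ I, v.support ⊆ B) :
    ∃ (M : ℕ) (lam : Fin M → (MvPolynomial σ K →ₗ[K] K)) (W : Fin M → MvPolynomial σ K),
      (∀ t, ∀ v ∈ I, lam t v = 0) ∧ (∀ t, (W t).support ⊆ B) ∧
        ∀ b ∈ B, monomial b 1 - ∑ t, lam t (monomial b 1) • W t ∈ I := by
  classical
  have _ := hI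
  let U : Submodule K (MvPolynomial σ K) := Submodule.span K ((fun b => monomial b (1 : K)) '' (B : Set (σ →₀ ℕ)))
  have hU : ∀ v ∈ U, v.support ⊆ B := by
    intro v hv
    induction hv using Submodule.span_induction with
    | mem x hx =>
      obtain ⟨b, hb, rfl⟩ := hx
      exact (support_monomial_subset).trans (by simpa using hb)
    | zero => simp
    | add x y _ _ hx hy => exact (support_add).trans (Finset.union_subset hx hy)
    | smul a x _ hx => exact (support_smul).trans hx
  have hUf : Module.Finite K U := by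
    apply Module.Finite.span_of_finite
    exact (B.finite_toSet).image _
  set U' : Submodule K (MvPolynomial σ K ⧸ I) := U.map I.mkQ with hU'
  have hU'f : Module.Finite K U' := by
    rw [hU']
    infer_instance
  let e := Module.finBasis K U'
  have hlift : ∀ t, ∃ w ∈ U, I.mkQ w = ((e t : U') : MvPolynomial σ K ⧸ I) := by
    intro t
    exact Submodule.mem_map.mp (e t).2
  choose W hWU hW using hlift
  have hext : ∀ t, ∃ g : (MvPolynomial σ K ⧸ I) →ₗ[K] K, g ∘ₗ U'.subtype = e.coord t :=
    fun t => (e.coord t).exists_extend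
  choose g hg using hext
  refine ⟨_, fun t => (g t).comp I.mkQ, W, ?_, fun t => hU _ (hWU t), ?_⟩
  · intro t v hv
    have : I.mkQ v = 0 := by simpa using hv
    rw [LinearMap.comp_apply, this, map_zero]
  · intro b hb
    have hbU : monomial b (1 : K) ∈ U := Submodule.subset_span ⟨b, by simpa using hb, rfl⟩
    have hmem : I.mkQ (monomial b 1) ∈ U' := Submodule.mem_map_of_mem hbU
    have h1 : ∀ t, (g t).comp I.mkQ (monomial b 1) = e.repr ⟨I.mkQ (monomial b 1), hmem⟩ t := by
      intro t
      have := LinearMap.congr_fun (hg t) ⟨I.mkQ (monomial b 1), hmem⟩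
      simpa using this
    rw [← Submodule.Quotient.mk_eq_zero, ← Submodule.mkQ_apply, map_sub, map_sum, sub_eq_zero]
    have h2 := congrArg Subtype.val (e.sum_repr ⟨I.mkQ (monomial b 1), hmem⟩)
    rw [Submodule.coe_sum] at h2
    refine h2.symm.trans ?_
    apply Finset.sum_congr rfl
    intro t _
    rw [map_smul, hW t, Submodule.coe_smul, h1 t]

theorem hyp_mono (n d s t : ℕ) (h : s ≤ t) : hyp n d s ≤ hyp n d t := by
  induction t, h using Nat.le_induction with
  | base => exact le_rfl
  | succ t _ ih =>
    refine ih.trans ?_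
    unfold hyp
    have e1 : (t + 1 + n + 1).choose (n + 1) = (t + n + 1).choose n + (t + n + 1).choose (n + 1) := by
      rw [show t + 1 + n + 1 = (t + n + 1) + 1 by ring, Nat.choose_succ_succ]
    rw [e1]
    rcases le_or_gt d (t + n + 1) with hd | hd
    · have e2 : (t + 1 + n + 1 - d).choose (n + 1) =
          (t + n + 1 - d).choose n + (t + n + 1 - d).choose (n + 1) := by
        rw [show t + 1 + n + 1 - d = (t + n + 1 - d) + 1 by omega, Nat.choose_succ_succ]
      have e3 : (t + n + 1 - d).choose n ≤ (t + n + 1).choose n := Nat.choose_le_choose n (by omega)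
      rw [e2]
      omega
    · have e2 : t + 1 + n + 1 - d = 0 := by omega
      have e3 : t + n + 1 - d = 0 := by omega
      rw [e2, e3]
      simp

end Pool.Agent.H47.UG
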